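import Pool.Agent.Q78.LEO.Main

open Q78.BetaT Q78.LEO

/-- Q1 (true): the set `E` of the parameters `(α, β)` with `1 < β ≤ 2`, `α ≥ 0`, `α + β ≤ 2`, such
that `T_{α,β}` is topologically transitive but not topologically LEO, is countable. Moreover `α` and
`β` are algebraic numbers for every `(α, β)` in `E`. -/
theorem Pool.Agent.Results.MP_ce4ed9_an.CountableExceptions.result :
    {p : ℝ × ℝ | 1 < p.2 ∧ p.2 ≤ 2 ∧ 0 ≤ p.1 ∧ p.1 + p.2 ≤ 2 ∧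
      Transitive (T p.1 p.2) ∧ ¬ EventuallyOnto (T p.1 p.2)}.Countable ∧
    ∀ α β : ℝ, 1 < β → β ≤ 2 → 0 ≤ α → α + β ≤ 2 → Transitive (T α β) →
      ¬ EventuallyOnto (T α β) → IsAlgebraic ℚ α ∧ IsAlgebraic ℚ β :=
  ⟨countable_exceptions, fun _ _ h1 _ h3 h4 h5 h6 => algebraic_of ⟨h1, h3, h4⟩ h5 h6⟩
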